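import Pool.Agent.Helper4.RG.MAX

/-!
# Row E1 of the project RG
-/

open MeasureTheory Complex
open scoped ComplexConjugate
open Pool.Agent.Helper1.RG

namespace Pool.Agent.Helper4.RG

theorem kk_QU : kk ∈ QU := by
  have h1 : kk = ((3 / 5 : ℚ) : ℂ) + ((4 / 5 : ℚ) : ℂ) * I := by
    unfold kk ga gb
    have h2 : (2 - I : ℂ) ≠ 0 := by
      intro h
      have := congrArg Complex.re h
      simp at this
    rw [div_eq_iff h2]
    push_cast
    linear_combination (4 / 5 : ℂ) * I_mul_I
  refine ⟨⟨_, _, h1⟩, ?_⟩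
  unfold kk ga gb
  rw [norm_div]
  have h3 : ‖(2 + I : ℂ)‖ = ‖(2 - I : ℂ)‖ := by
    rw [← Complex.norm_conj (2 + I)]
    congr 1
    simp only [map_add, conj_I, map_ofNat]
    ring
  rw [h3, div_self]
  intro h
  have := norm_eq_zero.1 h
  have := congrArg Complex.re this
  simp at this

theorem kk_pow_QU (j : ℕ) : kk ^ j ∈ QU := by
  induction j with
  | zero => rw [pow_zero]; exact QU_one
  | succ j ih => rw [pow_succ]; exact QU_mul ih kk_QU

theorem meas_ev (x : ℂ) : Measurable (Helper1.RG.ev x) := by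
  have h1 : Measurable (fun (χ : Om) (x : (Set.univ : Set ℂ)) => Helper1.RG.ev (x : ℂ) χ) :=
    comap_measurable _
  exact (measurable_pi_apply (⟨x, Set.mem_univ _⟩ : (Set.univ : Set ℂ))).comp h1

theorem meas_bad (F : Finset ℂ) (c : ℂ → ℂ) : MeasurableSet (bad F c) := by
  unfold bad
  apply measurableSet_lt measurable_const
  apply Measurable.norm
  exact (meas_ev _).sub (Finset.measurable_sum _ fun x _ => (meas_ev x).const_mul _)

open Classical in
theorem meas_Good (F : Finset ℂ) (c : ℂ → ℂ) (lam : ℝ) : MeasurableSet (Good F c lam) := by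
  unfold Good
  rw [Set.ofPred_forall]
  apply MeasurableSet.iInter
  intro n
  apply measurableSet_le _ measurable_const
  have h1 : (fun χ : Om => (((Finset.range (2 ^ n)).filter
      fun j => χ.mulShift (kk ^ j) ∈ bad F c).card : ℝ)) =
      fun χ : Om => ∑ j ∈ Finset.range (2 ^ n),
        (bad F c).indicator (fun _ => (1 : ℝ)) (χ.mulShift (kk ^ j)) := by
    funext χ
    rw [Finset.card_filter]
    push_cast
    apply Finset.sum_congr rfl
    intro j _
    simp [Set.indicator_apply]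
  rw [h1]
  apply Finset.measurable_sum
  intro j _
  exact (measurable_const.indicator (meas_bad F c)).comp (meas_mulShift _)

theorem ae_pow {P : Measure Om} (hInv : Inv P) {V : Set Om}
    (hV : ∀ᵐ χ ∂P, (χ ∈ V ↔ χ.mulShift kk ∈ V)) (j : ℕ) :
    ∀ᵐ χ ∂P, (χ ∈ V ↔ χ.mulShift (kk ^ j) ∈ V) := by
  induction j with
  | zero =>
    refine Filter.Eventually.of_forall fun χ => ?_
    simp
  | succ j ih =>
    have h1 := (mp_mulShift hInv (kk_pow_QU j)).quasiMeasurePreserving.ae hV
    filter_upwards [ih, h1] with χ h2 h3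
    rw [h2, h3]
    have h4 : (χ.mulShift (kk ^ j)).mulShift kk = χ.mulShift (kk ^ (j + 1)) := by
      ext z
      simp only [AddChar.mulShift_apply]
      congr 2
      ring
    rw [h4]

open Classical in
theorem st_E1 : ST_E1 := by
  intro P hPr hInv V hV hVk F c lam hlam
  refine ⟨meas_Good F c lam, ?_⟩
  let _ := act
  have := hPr
  have hU : MPA QG P := fun v => mp_mulShift hInv v.2
  set f : Om → ℝ := (V ∩ bad F c).indicator (fun _ => (1 : ℝ)) with hf
  have hms : MeasurableSet (V ∩ bad F c) := hV.inter (meas_bad F c)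
  have hNice : Nice f := by
    refine ⟨measurable_const.indicator hms, fun χ => ?_⟩
    by_cases h : χ ∈ V ∩ bad F c
    · simp [hf, Set.indicator_of_mem h]
    · simp [hf, Set.indicator_of_notMem h]
  have h := MAXK hU (toQG kk) hNice hlam
  have hint : ∫ χ, f χ ∂P = P.real (V ∩ bad F c) := by
    rw [hf, integral_indicator_const _ hms]
    simp
  rw [hint] at h
  refine le_trans ?_ h
  have hae : ∀ᵐ χ ∂P, ∀ j : ℕ, (χ ∈ V ↔ χ.mulShift (kk ^ j) ∈ V) :=
    ae_all_iff.2 fun j => ae_pow hInv hVk j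
  apply ENNReal.toReal_mono (measure_ne_top _ _)
  apply measure_mono_ae
  filter_upwards [hae] with χ hχ
  rintro ⟨hχV, hχG⟩
  have hχG' : ¬ ∀ n : ℕ, (((Finset.range (2 ^ n)).filter
      fun j => χ.mulShift (kk ^ j) ∈ bad F c).card : ℝ) ≤ lam * 2 ^ n := hχG
  push Not at hχG'
  obtain ⟨n, hn⟩ := hχG'
  refine ⟨n, lt_of_lt_of_le hn (le_of_eq ?_)⟩
  rw [Finset.card_filter]
  push_cast
  apply Finset.sum_congr rfl
  intro j _
  have h5 : (toQG kk) ^ j • χ = χ.mulShift (kk ^ j) := by
    show χ.mulShift _ = _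
    congr 1
    push_cast
    rw [toQG_val kk_QU]
  rw [h5, hf]
  have h6 : χ.mulShift (kk ^ j) ∈ V := (hχ j).1 hχV
  by_cases h7 : χ.mulShift (kk ^ j) ∈ bad F c
  · rw [if_pos h7, Set.indicator_of_mem (Set.mem_inter h6 h7)]
  · rw [if_neg h7, Set.indicator_of_notMem fun h8 => h7 h8.2]

end Pool.Agent.Helper4.RG
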