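import Pool.Agent.Helper4.RG.MAXI

/-!
# Explicit forms of the maximal inequality
-/

namespace Pool.Agent.Helper4.RG

open MeasureTheory

set_option linter.unusedSectionVars false

section Algebra

variable {ι : Type*} {U : Type*} [CommGroup U] {Ω : Type*} [MulAction U Ω]

theorem SL_append (L M : List (Finset ι × (ι → U))) (f : Ω → ℝ) :
    SL (L ++ M) f = SL M (SL L f) := by
  induction L generalizing f with
  | nil => rfl
  | cons s L ih => exact ih _

/-- one more step -/
theorem SN_succ (s : ℕ → Finset ι × (ι → U)) (n : ℕ) (f : Ω → ℝ) :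
    SN s (n + 1) f = Q (s n) (SN s n f) := by
  unfold SN
  rw [List.range_succ, List.map_append, SL_append]
  rfl

theorem SN_zero (s : ℕ → Finset ι × (ι → U)) (f : Ω → ℝ) : SN s 0 f = f := rfl

/-- the average written as a sum over pairs of finite families of elements: if `C n` (with the
weights `g n`) lists the products of the first `n` steps -/
theorem SN_explicit (s : ℕ → Finset ι × (ι → U)) (n : ℕ) (f : Ω → ℝ) (χ : Ω) :
    SN s n f χ = (∑ a ∈ Fintype.piFinset (fun j : Fin n => (s j).1),
      ∑ b ∈ Fintype.piFinset (fun j : Fin n => (s j).1),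
        f (((∏ j : Fin n, (s j).2 (a j)) * (∏ j : Fin n, (s j).2 (b j))⁻¹) • χ)) /
      ((∏ j : Fin n, ((s j).1.card : ℝ)) ^ 2) := by
  induction n generalizing χ with
  | zero => simp [SN_zero]
  | succ n ih =>
    rw [SN_succ]
    unfold Q
    -- the sum over `piFinset` on `Fin (n + 1)` as a sum over pairs
    have key : ∀ F : (Fin (n + 1) → ι) → ℝ,
        ∑ a ∈ Fintype.piFinset (fun j : Fin (n + 1) => (s j).1), F a =
        ∑ i ∈ (s n).1, ∑ a ∈ Fintype.piFinset (fun j : Fin n => (s j).1),
          F (Fin.snoc a i) := by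
      intro F
      rw [← Finset.sum_product']
      symm
      apply Finset.sum_bij' (fun (p : ι × (Fin n → ι)) _ => (Fin.snoc p.2 p.1 : Fin (n+1) → ι))
        (fun (a : Fin (n+1) → ι) _ => (a (Fin.last n), Fin.init a))
      · rintro ⟨i, a⟩ h
        rw [Finset.mem_product] at h
        rw [Fintype.mem_piFinset]
        intro j
        refine Fin.lastCases ?_ (fun j => ?_) j
        · simpa using h.1
        · simpa using (Fintype.mem_piFinset.1 h.2) j
      · intro a h
        rw [Fintype.mem_piFinset] at h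
        rw [Finset.mem_product, Fintype.mem_piFinset]
        refine ⟨by simpa using h (Fin.last n), fun j => by simpa [Fin.init] using h j.castSucc⟩
      · rintro ⟨i, a⟩ h
        simp
      · intro a h
        simp
      · rintro ⟨i, a⟩ h
        rfl
    rw [key]
    simp_rw [key]
    simp_rw [ih]
    have hc : ∏ j : Fin (n + 1), ((s j).1.card : ℝ) =
        (∏ j : Fin n, ((s j).1.card : ℝ)) * ((s n).1.card : ℝ) := by
      rw [Fin.prod_univ_castSucc]
      simp
    rw [hc, mul_pow, ← div_div]
    congr 1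
    simp_rw [← Finset.sum_div]
    congr 1
    apply Finset.sum_congr rfl
    intro i _
    rw [Finset.sum_comm]
    apply Finset.sum_congr rfl
    intro a _
    apply Finset.sum_congr rfl
    intro j _
    apply Finset.sum_congr rfl
    intro b _
    congr 1
    rw [smul_smul]
    congr 1
    rw [Fin.prod_univ_castSucc, Fin.prod_univ_castSucc]
    simp only [Fin.snoc_castSucc, Fin.snoc_last, Fin.val_castSucc, Fin.val_last]
    rw [mul_inv]
    exact mul_mul_mul_comm _ _ _ _

/-- the dyadic steps of one element: the choice `i ∈ {0, 1}` gives `k ^ (i * 2 ^ j)` -/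
def dy (k : U) (j : ℕ) : Finset ℕ × (ℕ → U) := (Finset.range 2, fun i => k ^ (i * 2 ^ j))

theorem dy_nonempty (k : U) (j : ℕ) : (dy k j).1.Nonempty := ⟨0, by simp [dy]⟩

/-- the average over the first `n` dyadic steps is the Fejér average of length `2 ^ n` -/
theorem SN_dy (k : U) (n : ℕ) (f : Ω → ℝ) (χ : Ω) :
    SN (dy k) n f χ = (∑ i ∈ Finset.range (2 ^ n), ∑ j ∈ Finset.range (2 ^ n),
      f ((k ^ i * (k ^ j)⁻¹) • χ)) / 4 ^ n := by
  induction n generalizing χ with
  | zero => simp [SN_zero]
  | succ n ih =>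
    rw [SN_succ]
    unfold Q
    have h2 : ∀ F : ℕ → ℝ, ∑ i ∈ Finset.range (2 ^ (n + 1)), F i =
        ∑ e ∈ Finset.range 2, ∑ i ∈ Finset.range (2 ^ n), F (i + e * 2 ^ n) := by
      intro F
      rw [pow_succ, mul_two, Finset.sum_range_add, Finset.sum_range_succ, Finset.sum_range_one]
      simp [add_comm]
    rw [h2]
    simp_rw [h2, ih]
    have hc : (((dy k n).1.card : ℕ) : ℝ) ^ 2 = 4 := by
      simp [dy]; norm_num
    rw [hc, pow_succ (4 : ℝ) n, ← div_div]
    congr 1
    simp_rw [← Finset.sum_div]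
    congr 1
    show ∑ e ∈ Finset.range 2, ∑ e' ∈ Finset.range 2, _ = _
    apply Finset.sum_congr rfl
    intro e _
    rw [Finset.sum_comm]
    apply Finset.sum_congr rfl
    intro i _
    apply Finset.sum_congr rfl
    intro e' _
    apply Finset.sum_congr rfl
    intro j _
    congr 1
    rw [smul_smul]
    congr 1
    show k ^ i * (k ^ j)⁻¹ * (k ^ (e * 2 ^ n) * (k ^ (e' * 2 ^ n))⁻¹) = _
    rw [pow_add, pow_add, mul_inv]
    exact mul_mul_mul_comm _ _ _ _

/-- the one sided average is at most four times the Fejér average -/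
theorem dy_lower (k : U) (n : ℕ) (f : Ω → ℝ) (hf : ∀ χ, 0 ≤ f χ) (χ : Ω) :
    (∑ j ∈ Finset.range (2 ^ n), f (k ^ j • χ)) / 2 ^ n ≤ 4 * SN (dy k) (n + 1) f χ := by
  rw [SN_dy]
  have h1 : (2 : ℝ) ^ n * ∑ j ∈ Finset.range (2 ^ n), f (k ^ j • χ) ≤
      ∑ i ∈ Finset.range (2 ^ (n + 1)), ∑ j ∈ Finset.range (2 ^ (n + 1)),
        f ((k ^ i * (k ^ j)⁻¹) • χ) := by
    rw [Finset.sum_comm]
    calc (2 : ℝ) ^ n * ∑ j ∈ Finset.range (2 ^ n), f (k ^ j • χ)
        = ∑ i ∈ Finset.range (2 ^ n), ∑ j ∈ Finset.range (2 ^ n), f (k ^ j • χ) := by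
          rw [Finset.sum_const, Finset.card_range, nsmul_eq_mul]; push_cast; rfl
      _ ≤ ∑ i ∈ Finset.range (2 ^ n), ∑ j ∈ Finset.range (2 ^ (n + 1)),
            f ((k ^ j * (k ^ i)⁻¹) • χ) := by
          apply Finset.sum_le_sum
          intro i hi
          have hi' := Finset.mem_range.1 hi
          have h3 : ∑ j ∈ Finset.range (2 ^ n), f (k ^ j • χ) =
              ∑ j ∈ (Finset.range (2 ^ n)).image (fun j => j + i),
                f ((k ^ j * (k ^ i)⁻¹) • χ) := by
            rw [Finset.sum_image (fun a _ b _ h => Nat.add_right_cancel h)]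
            apply Finset.sum_congr rfl
            intro j _
            congr 2
            rw [pow_add, mul_inv_cancel_right]
          rw [h3]
          apply Finset.sum_le_sum_of_subset_of_nonneg
          · intro j hj
            obtain ⟨j', hj', rfl⟩ := Finset.mem_image.1 hj
            have := Finset.mem_range.1 hj'
            rw [Finset.mem_range, pow_succ]
            omega
          · intro j _ _
            exact hf _
      _ ≤ ∑ i ∈ Finset.range (2 ^ (n + 1)), ∑ j ∈ Finset.range (2 ^ (n + 1)),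
            f ((k ^ j * (k ^ i)⁻¹) • χ) := by
          apply Finset.sum_le_sum_of_subset_of_nonneg
          · intro i hi
            have := Finset.mem_range.1 hi
            rw [Finset.mem_range, pow_succ]
            omega
          · intro i _ _
            exact Finset.sum_nonneg fun j _ => hf _
  have h4 : (4 : ℝ) ^ (n + 1) = 4 * (2 ^ n * 2 ^ n) := by
    rw [pow_succ, ← mul_pow]; norm_num; ring
  rw [h4, div_le_iff₀ (by positivity)]
  calc ∑ j ∈ Finset.range (2 ^ n), f (k ^ j • χ)
      = (2 ^ n * ∑ j ∈ Finset.range (2 ^ n), f (k ^ j • χ)) / 2 ^ n := by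
        field_simp
    _ ≤ (∑ i ∈ Finset.range (2 ^ (n + 1)), ∑ j ∈ Finset.range (2 ^ (n + 1)),
        f ((k ^ i * (k ^ j)⁻¹) • χ)) / 2 ^ n := div_le_div_of_nonneg_right h1 (by positivity)
    _ = _ := by
        field_simp

end Algebra

section Measure

variable {U : Type*} [CommGroup U] {Ω : Type*} [MulAction U Ω] [MeasurableSpace Ω]

/-- **the maximal inequality for one element**, at dyadic times -/
theorem MAXK {P : Measure Ω} [IsProbabilityMeasure P] (hU : MPA U P)
    (k : U) {f : Ω → ℝ} (hf : Nice f) {lam : ℝ} (hlam : 0 < lam) :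
    P.real {χ | ∃ n : ℕ, lam * 2 ^ n < ∑ j ∈ Finset.range (2 ^ n), f (k ^ j • χ)} ≤
      8 * Real.sqrt (∫ χ, f χ ∂P) / lam := by
  have h := MAXI hU (dy k) (dy_nonempty k) hf (lam := lam / 4) (by linarith)
  have h2 : 2 * Real.sqrt (∫ χ, f χ ∂P) / (lam / 4) = 8 * Real.sqrt (∫ χ, f χ ∂P) / lam := by
    field_simp
    ring
  rw [h2] at h
  refine le_trans (measureReal_mono ?_) h
  rintro χ ⟨n, hn⟩
  refine ⟨n + 1, ?_⟩
  have h3 := dy_lower k n f (fun χ => (hf.2 χ).1) χ
  have h4 : lam < (∑ j ∈ Finset.range (2 ^ n), f (k ^ j • χ)) / 2 ^ n := by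
    rw [lt_div_iff₀ (by positivity)]
    exact hn
  linarith

end Measure

end Pool.Agent.Helper4.RG
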