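import Pool.Agent.Helper1.RG.Defs
import Pool.Agent.Helper4.RG.MAXC

/-!
# Row MAX of the project RG
-/

open MeasureTheory Complex
open scoped ComplexConjugate
open Pool.Agent.Helper1.RG

namespace Pool.Agent.Helper4.RG

theorem QI_mul {x y : ℂ} (hx : x ∈ QI) (hy : y ∈ QI) : x * y ∈ QI := by
  obtain ⟨a, b, rfl⟩ := hx
  obtain ⟨c, d, rfl⟩ := hy
  refine ⟨a * c - b * d, a * d + b * c, ?_⟩
  push_cast
  linear_combination (b * d : ℂ) * I_mul_I

theorem QI_conj {x : ℂ} (hx : x ∈ QI) : conj x ∈ QI := by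
  obtain ⟨a, b, rfl⟩ := hx
  refine ⟨a, -b, ?_⟩
  simp only [map_add, map_mul, conj_I]
  push_cast
  have h1 : ∀ q : ℚ, conj ((q : ℂ)) = (q : ℂ) := fun q => by
    have : ((q : ℂ)) = ((q : ℝ) : ℂ) := by push_cast; rfl
    rw [this, conj_ofReal]
  rw [h1, h1]
  ring

theorem QU_mul {x y : ℂ} (hx : x ∈ QU) (hy : y ∈ QU) : x * y ∈ QU :=
  ⟨QI_mul hx.1 hy.1, by rw [norm_mul, hx.2, hy.2, one_mul]⟩

theorem QU_one : (1 : ℂ) ∈ QU := ⟨⟨1, 0, by simp⟩, by simp⟩

theorem QU_inv {x : ℂ} (hx : x ∈ QU) : x⁻¹ ∈ QU := by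
  have h1 : x⁻¹ = conj x := by
    rw [Complex.inv_def]
    have : normSq x = 1 := by
      rw [Complex.normSq_eq_norm_sq, hx.2]; norm_num
    rw [this]; simp
  rw [h1]
  exact ⟨QI_conj hx.1, by rw [Complex.norm_conj]; exact hx.2⟩

/-- the group of rational units -/
def QG : Subgroup ℂˣ where
  carrier := {u | (u : ℂ) ∈ QU}
  mul_mem' := by
    intro a b ha hb
    simp only [Set.mem_ofPred_eq, Units.val_mul] at *
    exact QU_mul ha hb
  one_mem' := by
    simp only [Set.mem_ofPred_eq, Units.val_one]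
    exact QU_one
  inv_mem' := by
    intro a ha
    simp only [Set.mem_ofPred_eq, Units.val_inv_eq_inv_val] at *
    exact QU_inv ha

/-- the rational units act on the characters -/
@[reducible] noncomputable def act : MulAction QG Om where
  smul u χ := χ.mulShift (((u : QG) : ℂˣ) : ℂ)
  one_smul χ := by
    show χ.mulShift _ = χ
    simp
  mul_smul u v χ := by
    show χ.mulShift _ = (χ.mulShift _).mulShift _
    ext z
    simp only [AddChar.mulShift_apply]
    congr 2
    push_cast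
    ring

theorem act_smul (u : QG) (χ : Om) :
    @HSMul.hSMul QG Om Om (@instHSMul QG Om act.toSMul) u χ = χ.mulShift (((u : QG) : ℂˣ) : ℂ) := rfl

/-- `χ ↦ χ.mulShift u` is measurable -/
theorem meas_mulShift (u : ℂ) : Measurable (fun χ : Om => χ.mulShift u) := by
  have h1 : Measurable (fun (χ : Om) (x : (Set.univ : Set ℂ)) => Helper1.RG.ev (x : ℂ) χ) :=
    comap_measurable _
  refine measurable_comap_iff.2 ?_
  rw [measurable_pi_iff]
  intro x
  have h2 : Measurable (fun χ : Om => Helper1.RG.ev (u * x) χ) :=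
    (measurable_pi_apply (⟨u * x, Set.mem_univ _⟩ : (Set.univ : Set ℂ))).comp h1
  exact h2

theorem mp_mulShift {P : Measure Om} (hP : Inv P) {u : ℂ} (hu : u ∈ QU) :
    MeasurePreserving (fun χ : Om => χ.mulShift u) P P := ⟨meas_mulShift u, hP u hu⟩

theorem sum_pi (N : ℕ → ℕ) (n : ℕ) (F : (Fin n → ℕ) → ℝ) :
    ∑ a ∈ Fintype.piFinset (fun j : Fin n => Finset.range (N j)), F a =
      ∑ a : (i : Fin n) → Fin (N i), F (fun i => (a i : ℕ)) := by
  apply Finset.sum_bij' (fun (a : Fin n → ℕ) h => (fun i : Fin n =>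
      (⟨a i, Finset.mem_range.1 (Fintype.mem_piFinset.1 h i)⟩ : Fin (N i))))
    (fun (a : (i : Fin n) → Fin (N i)) _ => fun i => (a i : ℕ))
  case hi =>
    intro a h
    exact Finset.mem_univ _
  case hj =>
    intro a h
    rw [Fintype.mem_piFinset]
    intro i
    exact Finset.mem_range.2 (a i).2
  case left_neg =>
    intro a h
    rfl
  case right_neg =>
    intro a h
    rfl
  case h =>
    intro a h
    rfl

open Classical in
/-- an element of `QG` from a complex number -/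
noncomputable def toQG (z : ℂ) : QG :=
  if h : z ∈ QU then ⟨Units.mk0 z (by
    intro h0
    have := h.2
    rw [h0] at this
    simp at this), by
      show (Units.mk0 z _ : ℂ) ∈ QU
      exact h⟩ else 1

theorem toQG_val {z : ℂ} (h : z ∈ QU) : (((toQG z : QG) : ℂˣ) : ℂ) = z := by
  unfold toQG
  rw [dif_pos h]
  rfl

/-- the steps of the row MAX -/
noncomputable def stp (N : ℕ → ℕ) (u : ℕ → ℕ → ℂ) (j : ℕ) : Finset ℕ × (ℕ → QG) :=
  (Finset.range (N j), fun a => toQG (u j a))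

theorem Av_eq (N : ℕ → ℕ) (u : ℕ → ℕ → ℂ) (hu : ∀ n a, a < N n → u n a ∈ QU)
    (f : Om → ℝ) (n : ℕ) (χ : Om) :
    Av N u f n χ = @SN ℕ QG _ Om act (stp N u) n f χ := by
  let _ := act
  rw [SN_explicit]
  unfold Av
  have hc : (∏ j : Fin n, (((stp N u j).1.card : ℕ) : ℝ)) = ∏ i ∈ Finset.range n, (N i : ℝ) := by
    rw [← Fin.prod_univ_eq_prod_range (fun i => (N i : ℝ)) n]
    apply Finset.prod_congr rfl
    intro j _
    simp [stp]
  rw [hc]
  congr 1
  show _ = ∑ a ∈ Fintype.piFinset (fun j : Fin n => Finset.range (N j)),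
    ∑ b ∈ Fintype.piFinset (fun j : Fin n => Finset.range (N j)), _
  rw [sum_pi]
  apply Finset.sum_congr rfl
  intro a _
  rw [sum_pi]
  apply Finset.sum_congr rfl
  intro b _
  have e : ∀ a : (i : Fin n) → Fin (N i),
      ((((∏ j : Fin n, (stp N u j).2 (a j : ℕ)) : QG) : ℂˣ) : ℂ) = ∏ i : Fin n, u i (a i) := by
    intro a
    rw [Subgroup.val_finsetProd, Units.coe_prod]
    apply Finset.prod_congr rfl
    intro j _
    exact toQG_val (hu j _ (a j).2)
  show f _ = f (χ.mulShift _)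
  congr 2
  rw [div_eq_mul_inv, ← e a, ← e b]
  push_cast
  rfl

theorem st_MAX : ST_MAX := by
  intro P hPr hInv N u hN hu f hf h0 h1 lam hlam
  let _ := act
  have := hPr
  have hU : MPA QG P := fun v => mp_mulShift hInv v.2
  have h := MAXI hU (stp N u) (fun j => by
    show (Finset.range (N j)).Nonempty
    exact ⟨0, Finset.mem_range.2 (hN j)⟩) (f := f) ⟨hf, fun χ => ⟨h0 χ, h1 χ⟩⟩ hlam
  have e : {χ | ∃ n, lam < Av N u f n χ} = {χ | ∃ n, lam < SN (stp N u) n f χ} := by
    ext χ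
    simp only [Set.mem_ofPred_eq, Av_eq N u hu]
  rw [e]
  exact h

end Pool.Agent.Helper4.RG
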