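import Mathlib

/-!
# The maximal inequality of Rota and Doob for products of commuting averages

`U` is a commutative group acting on a probability space by measure preserving maps.  A step is a
finite nonempty index set `A` with a map `g : ι → U`.  For a list of steps, `SL L f χ` is the
average of `f (g(a) g(b)⁻¹ • χ)` over all pairs of choices `a`, `b` of the list, `g(a)` the product
of the chosen elements.  The probability that one of the averages along a sequence of steps is
greater than `lam` is at most `2 sqrt(E f) / lam`.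
-/

namespace Pool.Agent.Helper4.RG

open MeasureTheory

set_option linter.unusedSectionVars false

section Algebra

variable {ι : Type*} {U : Type*} [CommGroup U] {Ω : Type*} [MulAction U Ω]

/-- the average of `f (u • χ)` over the step -/
noncomputable def T (s : Finset ι × (ι → U)) (f : Ω → ℝ) (χ : Ω) : ℝ :=
  (∑ i ∈ s.1, f (s.2 i • χ)) / s.1.card

/-- the average of `f (u v⁻¹ • χ)` over pairs of the step -/
noncomputable def Q (s : Finset ι × (ι → U)) (f : Ω → ℝ) (χ : Ω) : ℝ :=
  (∑ i ∈ s.1, ∑ j ∈ s.1, f ((s.2 i * (s.2 j)⁻¹) • χ)) / (s.1.card : ℝ) ^ 2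

/-- the average over the pairs of choices of a list of steps -/
noncomputable def SL : List (Finset ι × (ι → U)) → (Ω → ℝ) → Ω → ℝ
  | [], f => f
  | s :: L, f => SL L (Q s f)

/-- the same average, in the form of the conditional expectation of a reverse martingale -/
noncomputable def RL : List (Finset ι × (ι → U)) → (Ω → ℝ) → Ω → ℝ
  | [], f => f
  | s :: L, f => fun χ => (∑ i ∈ s.1, RL L (T s f) ((s.2 i)⁻¹ • χ)) / s.1.card

/-- the maximum of the reverse martingale -/
noncomputable def mx : List (Finset ι × (ι → U)) → (Ω → ℝ) → Ω → List ι → ℝ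
  | [], f, χ, _ => f χ
  | _ :: _, f, χ, [] => f χ
  | s :: L, f, χ, i :: is => max (f χ) (mx L (T s f) ((s.2 i)⁻¹ • χ) is)

/-- the average over the choices of a list of steps -/
noncomputable def ev : List (Finset ι × (ι → U)) → (List ι → ℝ) → ℝ
  | [], h => h []
  | s :: L, h => (∑ i ∈ s.1, ev L (fun is => h (i :: is))) / s.1.card

/-- a list all of whose steps are nonempty -/
def NE (L : List (Finset ι × (ι → U))) : Prop := ∀ s ∈ L, s.1.Nonempty

theorem ev_mono (L : List (Finset ι × (ι → U))) {h h' : List ι → ℝ} (hh : ∀ is, h is ≤ h' is) :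
    ev L h ≤ ev L h' := by
  induction L generalizing h h' with
  | nil => exact hh []
  | cons s L ih =>
    unfold ev
    apply div_le_div_of_nonneg_right _ (Nat.cast_nonneg _)
    exact Finset.sum_le_sum fun i _ => ih fun is => hh (i :: is)

theorem ev_sum {κ : Type*} (L : List (Finset ι × (ι → U))) (K : Finset κ) (h : κ → List ι → ℝ) :
    ev L (fun is => ∑ k ∈ K, h k is) = ∑ k ∈ K, ev L (h k) := by
  induction L generalizing h with
  | nil => rfl
  | cons s L ih =>
    unfold ev
    rw [← Finset.sum_div, Finset.sum_comm]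
    congr 1
    exact Finset.sum_congr rfl fun i _ => ih fun k is => h k (i :: is)

theorem ev_add (L : List (Finset ι × (ι → U))) (h h' : List ι → ℝ) :
    ev L (fun is => h is + h' is) = ev L h + ev L h' := by
  induction L generalizing h h' with
  | nil => rfl
  | cons s L ih =>
    unfold ev
    rw [← add_div, ← Finset.sum_add_distrib]
    congr 1
    exact Finset.sum_congr rfl fun i _ => ih _ _

theorem ev_smul (L : List (Finset ι × (ι → U))) (c : ℝ) (h : List ι → ℝ) :
    ev L (fun is => c * h is) = c * ev L h := by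
  induction L generalizing h with
  | nil => rfl
  | cons s L ih =>
    unfold ev
    rw [← mul_div_assoc, Finset.mul_sum]
    congr 1
    exact Finset.sum_congr rfl fun i _ => ih _

theorem ev_const (L : List (Finset ι × (ι → U))) (hL : NE L) (c : ℝ) :
    ev L (fun _ => c) = c := by
  induction L with
  | nil => rfl
  | cons s L ih =>
    unfold ev
    have h1 : (s.1.card : ℝ) ≠ 0 := by
      have := (hL s (List.mem_cons_self)).card_pos
      positivity
    rw [Finset.sum_congr rfl fun i _ => ih fun t ht => hL t (List.mem_cons_of_mem _ ht),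
      Finset.sum_const, nsmul_eq_mul]
    field_simp

theorem le_mx (L : List (Finset ι × (ι → U))) (f : Ω → ℝ) (χ : Ω) (is : List ι) :
    f χ ≤ mx L f χ is := by
  cases L with
  | nil => exact le_refl _
  | cons s L =>
    cases is with
    | nil => exact le_refl _
    | cons i is => exact le_max_left _ _

theorem T_add (s : Finset ι × (ι → U)) (f f' : Ω → ℝ) :
    T s (fun χ => f χ + f' χ) = fun χ => T s f χ + T s f' χ := by
  funext χ
  unfold T
  rw [Finset.sum_add_distrib, add_div]

theorem T_sum {κ : Type*} (s : Finset ι × (ι → U)) (K : Finset κ) (h : κ → Ω → ℝ) :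
    T s (fun χ => ∑ k ∈ K, h k χ) = fun χ => ∑ k ∈ K, T s (h k) χ := by
  funext χ
  unfold T
  rw [← Finset.sum_div, Finset.sum_comm]

theorem T_smul (s : Finset ι × (ι → U)) (c : ℝ) (f : Ω → ℝ) :
    T s (fun χ => c * f χ) = fun χ => c * T s f χ := by
  funext χ
  unfold T
  rw [← Finset.mul_sum, mul_div_assoc]

theorem RL_sum {κ : Type*} (L : List (Finset ι × (ι → U))) (K : Finset κ) (h : κ → Ω → ℝ) :
    RL L (fun χ => ∑ k ∈ K, h k χ) = fun χ => ∑ k ∈ K, RL L (h k) χ := by
  induction L generalizing h with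
  | nil => rfl
  | cons s L ih =>
    funext χ
    simp only [RL]
    rw [T_sum, ih]
    simp only
    rw [← Finset.sum_div, Finset.sum_comm]

theorem RL_smul (L : List (Finset ι × (ι → U))) (c : ℝ) (f : Ω → ℝ) :
    RL L (fun χ => c * f χ) = fun χ => c * RL L f χ := by
  induction L generalizing f with
  | nil => rfl
  | cons s L ih =>
    funext χ
    simp only [RL]
    rw [T_smul, ih]
    simp only
    rw [← Finset.mul_sum, mul_div_assoc]

/-- translation commutes with the averages -/
theorem RL_translate (L : List (Finset ι × (ι → U))) (f : Ω → ℝ) (u : U) (χ : Ω) :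
    RL L f (u • χ) = RL L (fun ψ => f (u • ψ)) χ := by
  induction L generalizing f χ with
  | nil => rfl
  | cons s L ih =>
    simp only [RL]
    congr 1
    apply Finset.sum_congr rfl
    intro i _
    have h1 : (s.2 i)⁻¹ • (u • χ) = u • ((s.2 i)⁻¹ • χ) := by
      rw [smul_smul, smul_smul, mul_comm]
    rw [h1, ih]
    congr 1
    funext ψ
    unfold T
    congr 1
    apply Finset.sum_congr rfl
    intro j _
    show f (s.2 j • u • ψ) = f (u • s.2 j • ψ)
    rw [smul_smul, smul_smul, mul_comm]

theorem RL_eq_SL (L : List (Finset ι × (ι → U))) (f : Ω → ℝ) (χ : Ω) :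
    RL L f χ = SL L f χ := by
  induction L generalizing f χ with
  | nil => rfl
  | cons s L ih =>
    simp only [RL, SL]
    rw [← ih]
    have h1 : ∀ i ∈ s.1, RL L (T s f) ((s.2 i)⁻¹ • χ) =
        RL L (fun ψ => T s f ((s.2 i)⁻¹ • ψ)) χ := fun i _ => RL_translate L _ _ _
    rw [Finset.sum_congr rfl h1]
    have h2 := congrFun (RL_sum L s.1 (fun i ψ => T s f ((s.2 i)⁻¹ • ψ))) χ
    rw [← h2]
    have h3 : Q s f = fun ψ => (s.1.card : ℝ)⁻¹ * ∑ i ∈ s.1, T s f ((s.2 i)⁻¹ • ψ) := by
      funext ψ
      unfold Q T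
      rw [← Finset.sum_div, Finset.sum_comm]
      have h4 : ∀ j ∈ s.1, ∀ i ∈ s.1, f ((s.2 i * (s.2 j)⁻¹) • ψ) =
          f (s.2 i • (s.2 j)⁻¹ • ψ) := fun j _ i _ => by rw [smul_smul]
      rw [Finset.sum_congr rfl fun j hj => Finset.sum_congr rfl fun i hi => h4 j hj i hi]
      rw [pow_two, ← div_div, div_eq_inv_mul]
    rw [h3, RL_smul]
    simp only
    rw [div_eq_inv_mul]

/-- the average along a prefix is at most the average of the maximum -/
theorem RL_le_ev_mx (l L : List (Finset ι × (ι → U))) (hp : l <+: L) (hL : NE L)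
    (f : Ω → ℝ) (χ : Ω) : RL l f χ ≤ ev L (fun is => mx L f χ is) := by
  induction l generalizing L f χ with
  | nil =>
    have h1 : RL ([] : List (Finset ι × (ι → U))) f χ = ev L (fun _ => f χ) := by
      rw [ev_const L hL]; rfl
    rw [h1]
    exact ev_mono L fun is => le_mx L f χ is
  | cons s l ih =>
    obtain ⟨L', rfl⟩ := hp
    simp only [List.cons_append, RL, ev]
    apply div_le_div_of_nonneg_right _ (Nat.cast_nonneg _)
    apply Finset.sum_le_sum
    intro i _
    refine le_trans (ih (l ++ L') (List.prefix_append _ _)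
      (fun t ht => hL t (List.mem_cons_of_mem _ ht)) (T s f) ((s.2 i)⁻¹ • χ)) ?_
    exact ev_mono _ fun is => le_max_right _ _

end Algebra

section Measure

variable {ι : Type*} {U : Type*} [CommGroup U] {Ω : Type*} [MulAction U Ω] [MeasurableSpace Ω]

/-- measurable with values in the unit interval -/
def Nice (f : Ω → ℝ) : Prop := Measurable f ∧ ∀ χ, 0 ≤ f χ ∧ f χ ≤ 1

/-- the group acts by measure preserving maps -/
def MPA (U : Type*) [CommGroup U] {Ω : Type*} [MulAction U Ω] [MeasurableSpace Ω]
    (P : Measure Ω) : Prop := ∀ u : U, MeasurePreserving (fun χ : Ω => u • χ) P P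

theorem Nice.T {P : Measure Ω} (hU : MPA U P) {f : Ω → ℝ} (hf : Nice f)
    (s : Finset ι × (ι → U)) : Nice (T s f) := by
  refine ⟨?_, fun χ => ⟨?_, ?_⟩⟩
  · unfold RG.T
    apply Measurable.div_const
    exact Finset.measurable_sum _ fun i _ => hf.1.comp (hU (s.2 i)).measurable
  · exact div_nonneg (Finset.sum_nonneg fun i _ => (hf.2 _).1) (Nat.cast_nonneg _)
  · unfold RG.T
    rcases Nat.eq_zero_or_pos s.1.card with h | h
    · rw [h]; simp
    · rw [div_le_one (by exact_mod_cast h)]
      calc ∑ i ∈ s.1, f (s.2 i • χ) ≤ ∑ i ∈ s.1, (1 : ℝ) := Finset.sum_le_sum fun i _ => (hf.2 _).2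
        _ = s.1.card := by simp

theorem mx_nice {P : Measure Ω} (hU : MPA U P) (L : List (Finset ι × (ι → U)))
    {f : Ω → ℝ} (hf : Nice f) (is : List ι) : Nice (fun χ => mx L f χ is) := by
  induction L generalizing f is with
  | nil => exact hf
  | cons s L ih =>
    cases is with
    | nil => exact hf
    | cons i is =>
      have h1 := ih (hf.T hU s) is
      refine ⟨?_, fun χ => ⟨?_, ?_⟩⟩
      · simp only [mx]
        exact hf.1.max (h1.1.comp (hU (s.2 i)⁻¹).measurable)
      · exact le_trans (hf.2 χ).1 (le_max_left _ _)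
      · exact max_le (hf.2 χ).2 (h1.2 _).2

theorem Nice.integrable {P : Measure Ω} [IsProbabilityMeasure P] {f : Ω → ℝ} (hf : Nice f) :
    Integrable f P := by
  refine Integrable.of_bound hf.1.aestronglyMeasurable 1 (Filter.Eventually.of_forall fun χ => ?_)
  rw [Real.norm_eq_abs, abs_of_nonneg (hf.2 χ).1]
  exact (hf.2 χ).2

theorem Nice.mul {f g : Ω → ℝ} (hf : Nice f) (hg : Nice g) : Nice (fun χ => f χ * g χ) :=
  ⟨hf.1.mul hg.1, fun χ => ⟨mul_nonneg (hf.2 χ).1 (hg.2 χ).1,
    mul_le_one₀ (hf.2 χ).2 (hg.2 χ).1 (hg.2 χ).2⟩⟩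

theorem elem (x m : ℝ) : max x m * max x m - 2 * (max x m * x) ≤ m * m - 2 * (m * x) := by
  rcases le_total x m with h | h
  · rw [max_eq_right h]
  · rw [max_eq_left h]
    nlinarith [sq_nonneg (x - m)]

/-- the heart: `E[M²] ≤ 2 E[M f]` -/
theorem key1 {P : Measure Ω} [IsProbabilityMeasure P] (hU : MPA U P)
    (L : List (Finset ι × (ι → U))) {f : Ω → ℝ} (hf : Nice f) :
    ev L (fun is => ∫ χ, (mx L f χ is * mx L f χ is - 2 * (mx L f χ is * f χ)) ∂P) ≤ 0 := by
  induction L generalizing f with
  | nil =>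
    simp only [ev, mx]
    have h1 : ∀ χ, f χ * f χ - 2 * (f χ * f χ) = -(f χ * f χ) := fun χ => by ring
    simp only [h1]
    rw [integral_neg]
    have h2 : 0 ≤ ∫ χ, f χ * f χ ∂P := integral_nonneg fun χ => (hf.mul hf).2 χ |>.1
    linarith
  | cons s L ih =>
    have hT := hf.T hU s
    refine le_trans ?_ (ih hT)
    simp only [ev]
    -- step 1: bound by the translated maxima
    have h1 : ∀ i ∈ s.1, ev L (fun is => ∫ χ, (mx (s :: L) f χ (i :: is) * mx (s :: L) f χ (i :: is)
        - 2 * (mx (s :: L) f χ (i :: is) * f χ)) ∂P) ≤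
        ev L (fun is => ∫ χ, (mx L (T s f) χ is * mx L (T s f) χ is
          - 2 * (mx L (T s f) χ is * f (s.2 i • χ))) ∂P) := by
      intro i _
      apply ev_mono
      intro is
      have hm := mx_nice hU L hT is
      have hMP := hU (s.2 i)
      have ht : Nice (fun χ => f (s.2 i • χ)) := ⟨hf.1.comp hMP.measurable, fun χ => hf.2 _⟩
      have hm' : Nice (fun χ => mx L (T s f) ((s.2 i)⁻¹ • χ) is) :=
        ⟨hm.1.comp (hU (s.2 i)⁻¹).measurable, fun χ => hm.2 _⟩
      have hM := mx_nice hU (s :: L) hf (i :: is)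
      have e1 : ∫ χ, (mx L (T s f) χ is * mx L (T s f) χ is
          - 2 * (mx L (T s f) χ is * f (s.2 i • χ))) ∂P =
          ∫ χ, (mx L (T s f) ((s.2 i)⁻¹ • χ) is * mx L (T s f) ((s.2 i)⁻¹ • χ) is
          - 2 * (mx L (T s f) ((s.2 i)⁻¹ • χ) is * f χ)) ∂P := by
        have hG : AEStronglyMeasurable (fun χ => mx L (T s f) χ is * mx L (T s f) χ is
          - 2 * (mx L (T s f) χ is * f (s.2 i • χ))) P :=
          (((hm.mul hm).1).sub ((hm.mul ht).1.const_mul 2)).aestronglyMeasurable
        have hMP' := hU (s.2 i)⁻¹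
        rw [← hMP'.map_eq] at hG
        have h3 := integral_map hMP'.measurable.aemeasurable hG
        rw [hMP'.map_eq] at h3
        rw [h3]
        apply integral_congr_ae
        refine Filter.Eventually.of_forall fun χ => ?_
        simp only [smul_smul, mul_inv_cancel, one_smul]
      rw [e1]
      apply integral_mono
      · exact (hM.mul hM).integrable.sub ((hM.mul hf).integrable.const_mul 2)
      · exact (hm'.mul hm').integrable.sub ((hm'.mul hf).integrable.const_mul 2)
      · intro χ
        exact elem _ _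
    -- step 2: the average over the step
    have h2 : (∑ i ∈ s.1, ev L (fun is => ∫ χ, (mx L (T s f) χ is * mx L (T s f) χ is
          - 2 * (mx L (T s f) χ is * f (s.2 i • χ))) ∂P)) / (s.1.card : ℝ) ≤
        ev L (fun is => ∫ χ, (mx L (T s f) χ is * mx L (T s f) χ is
          - 2 * (mx L (T s f) χ is * T s f χ)) ∂P) := by
      rcases Finset.eq_empty_or_nonempty s.1 with h0 | hne
      · -- empty step: the left side is zero; the right side is computed from `T s f = 0`
        have hT0 : T s f = fun _ => 0 := by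
          funext χ; unfold T; rw [h0]; simp
        rw [h0]
        simp only [Finset.sum_empty, zero_div]
        rw [hT0]
        have hz : ∀ is, ∫ χ, (mx L (fun _ => (0:ℝ)) χ is * mx L (fun _ => (0:ℝ)) χ is
          - 2 * (mx L (fun _ => (0:ℝ)) χ is * 0)) ∂P = ∫ χ, (mx L (fun _ => (0:ℝ)) χ is *
            mx L (fun _ => (0:ℝ)) χ is) ∂P := by
          intro is
          apply integral_congr_ae
          exact Filter.Eventually.of_forall fun χ => by simp
        have hc : ev L (fun _ => (0:ℝ)) ≤ ev L (fun is => ∫ χ, (mx L (fun _ => (0:ℝ)) χ is *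
            mx L (fun _ => (0:ℝ)) χ is - 2 * (mx L (fun _ => (0:ℝ)) χ is * 0)) ∂P) := by
          apply ev_mono
          intro is
          rw [hz]
          exact integral_nonneg fun χ => mul_self_nonneg _
        refine le_trans ?_ hc
        have := ev_smul L 0 (fun _ => (0:ℝ))
        simp at this
        rw [this]
      · have hc : (s.1.card : ℝ) ≠ 0 := by
          have := hne.card_pos
          positivity
        rw [← ev_sum, div_eq_inv_mul, ← ev_smul]
        apply le_of_eq
        congr 1
        funext is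
        have hm := mx_nice hU L hT is
        have ht : ∀ i, Nice (fun χ => f (s.2 i • χ)) := fun i =>
          ⟨hf.1.comp (hU (s.2 i)).measurable, fun χ => hf.2 _⟩
        rw [← integral_finsetSum, ← integral_const_mul]
        · apply integral_congr_ae
          refine Filter.Eventually.of_forall fun χ => ?_
          simp only
          rw [Finset.sum_sub_distrib, Finset.sum_const, nsmul_eq_mul, ← Finset.mul_sum,
            ← Finset.mul_sum]
          unfold T
          field_simp
        · intro i _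
          exact (hm.mul hm).integrable.sub ((hm.mul (ht i)).integrable.const_mul 2)
    refine le_trans ?_ h2
    apply div_le_div_of_nonneg_right _ (Nat.cast_nonneg _)
    exact Finset.sum_le_sum h1

/-- the integral of the average of the maximum -/
theorem key2 {P : Measure Ω} [IsProbabilityMeasure P] (hU : MPA U P)
    (L : List (Finset ι × (ι → U))) (hL : NE L) {f : Ω → ℝ} (hf : Nice f) :
    ev L (fun is => ∫ χ, mx L f χ is ∂P) ≤ 2 * Real.sqrt (∫ χ, f χ ∂P) := by
  have hE0 : 0 ≤ ∫ χ, f χ ∂P := integral_nonneg fun χ => (hf.2 χ).1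
  -- `E[M²] ≤ 4 E f`
  have h1 : ev L (fun is => ∫ χ, mx L f χ is * mx L f χ is ∂P) ≤ 4 * ∫ χ, f χ ∂P := by
    have hk := key1 hU L hf
    have h2 : ev L (fun is => (1/2 : ℝ) * ∫ χ, mx L f χ is * mx L f χ is ∂P) +
        ev L (fun _ => -(2 * ∫ χ, f χ ∂P)) ≤ 0 := by
      rw [← ev_add]
      refine le_trans ?_ hk
      apply ev_mono
      intro is
      have hm := mx_nice hU L hf is
      have e1 : (1/2 : ℝ) * ∫ χ, mx L f χ is * mx L f χ is ∂P + -(2 * ∫ χ, f χ ∂P) =
          ∫ χ, ((1/2 : ℝ) * (mx L f χ is * mx L f χ is) - 2 * f χ) ∂P := by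
        rw [integral_sub ((hm.mul hm).integrable.const_mul _) (hf.integrable.const_mul _),
          integral_const_mul, integral_const_mul]
        ring
      rw [e1]
      apply integral_mono
      · exact ((hm.mul hm).integrable.const_mul _).sub (hf.integrable.const_mul _)
      · exact (hm.mul hm).integrable.sub ((hm.mul hf).integrable.const_mul 2)
      · intro χ
        simp only
        have h3 := (hf.2 χ).1
        have h4 := (hf.2 χ).2
        nlinarith [sq_nonneg (mx L f χ is - 2 * f χ), mul_nonneg h3 (sub_nonneg.2 h4)]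
    rw [ev_smul, ev_const L hL] at h2
    linarith
  have h5 : ∀ c : ℝ, 0 < c → ev L (fun is => ∫ χ, mx L f χ is ∂P) ≤
      c / 2 + (4 * ∫ χ, f χ ∂P) / (2 * c) := by
    intro c hc
    have h6 : ev L (fun is => ∫ χ, mx L f χ is ∂P) ≤
        ev L (fun is => c / 2 + (1 / (2 * c)) * ∫ χ, mx L f χ is * mx L f χ is ∂P) := by
      apply ev_mono
      intro is
      have hm := mx_nice hU L hf is
      have e1 : c / 2 + (1 / (2 * c)) * ∫ χ, mx L f χ is * mx L f χ is ∂P =
          ∫ χ, (c / 2 + (1 / (2 * c)) * (mx L f χ is * mx L f χ is)) ∂P := by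
        rw [integral_add (integrable_const _) ((hm.mul hm).integrable.const_mul _),
          integral_const_mul]
        simp
      rw [e1]
      apply integral_mono
      · exact hm.integrable
      · exact (integrable_const _).add ((hm.mul hm).integrable.const_mul _)
      · intro χ
        simp only
        have h7 : c / 2 + (1 / (2 * c)) * (mx L f χ is * mx L f χ is) - mx L f χ is =
            (c - mx L f χ is) ^ 2 / (2 * c) := by
          field_simp
          ring
        have h8 : 0 ≤ (c - mx L f χ is) ^ 2 / (2 * c) := by positivity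
        linarith
    rw [ev_add, ev_const L hL, ev_smul] at h6
    refine le_trans h6 ?_
    have h9 : 1 / (2 * c) * ev L (fun is => ∫ χ, mx L f χ is * mx L f χ is ∂P) ≤
        1 / (2 * c) * (4 * ∫ χ, f χ ∂P) := mul_le_mul_of_nonneg_left h1 (by positivity)
    have h10 : 1 / (2 * c) * (4 * ∫ χ, f χ ∂P) = (4 * ∫ χ, f χ ∂P) / (2 * c) := by
      rw [one_div, div_eq_inv_mul]
    linarith
  rcases hE0.eq_or_lt with h0 | h0
  · rw [← h0, Real.sqrt_zero, mul_zero]
    apply le_of_forall_pos_le_add
    intro ε hε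
    have := h5 (2 * ε) (by linarith)
    rw [← h0] at this
    simp at this
    linarith
  · have hs : 0 < Real.sqrt (∫ χ, f χ ∂P) := Real.sqrt_pos.2 h0
    have := h5 (2 * Real.sqrt (∫ χ, f χ ∂P)) (by linarith)
    have h11 : (4 * ∫ χ, f χ ∂P) / (2 * (2 * Real.sqrt (∫ χ, f χ ∂P))) =
        Real.sqrt (∫ χ, f χ ∂P) := by
      rw [div_eq_iff (by positivity)]
      nlinarith [Real.mul_self_sqrt hE0]
    rw [h11] at this
    linarith

theorem ev_integral {P : Measure Ω} [IsProbabilityMeasure P]
    (L : List (Finset ι × (ι → U))) (F : Ω → List ι → ℝ) (hF : ∀ is, Nice (fun χ => F χ is)) :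
    Nice (fun χ => ev L (F χ)) ∧ ∫ χ, ev L (F χ) ∂P = ev L (fun is => ∫ χ, F χ is ∂P) := by
  induction L generalizing F with
  | nil => exact ⟨hF [], rfl⟩
  | cons s L ih =>
    have h1 : ∀ i, Nice (fun χ => ev L (fun is => F χ (i :: is))) ∧
      ∫ χ, ev L (fun is => F χ (i :: is)) ∂P = ev L (fun is => ∫ χ, F χ (i :: is) ∂P) :=
      fun i => ih (fun χ is => F χ (i :: is)) fun is => hF (i :: is)
    constructor
    · refine ⟨?_, fun χ => ⟨?_, ?_⟩⟩
      · simp only [ev]
        exact (Finset.measurable_sum _ fun i _ => (h1 i).1.1).div_const _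
      · exact div_nonneg (Finset.sum_nonneg fun i _ => ((h1 i).1.2 χ).1) (Nat.cast_nonneg _)
      · simp only [ev]
        rcases Nat.eq_zero_or_pos s.1.card with h | h
        · rw [h]; simp
        · rw [div_le_one (by exact_mod_cast h)]
          calc ∑ i ∈ s.1, ev L (fun is => F χ (i :: is)) ≤ ∑ i ∈ s.1, (1 : ℝ) :=
                Finset.sum_le_sum fun i _ => ((h1 i).1.2 χ).2
            _ = s.1.card := by simp
    · simp only [ev]
      rw [integral_div, integral_finsetSum _ fun i _ => (h1 i).1.integrable]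
      congr 1
      exact Finset.sum_congr rfl fun i _ => (h1 i).2

theorem SL_nice {P : Measure Ω} (hU : MPA U P) (L : List (Finset ι × (ι → U)))
    {f : Ω → ℝ} (hf : Nice f) : Nice (SL L f) := by
  induction L generalizing f with
  | nil => exact hf
  | cons s L ih =>
    apply ih
    refine ⟨?_, fun χ => ⟨?_, ?_⟩⟩
    · unfold Q
      apply Measurable.div_const
      exact Finset.measurable_sum _ fun i _ => Finset.measurable_sum _ fun j _ =>
        hf.1.comp (hU _).measurable
    · exact div_nonneg (Finset.sum_nonneg fun i _ => Finset.sum_nonneg fun j _ => (hf.2 _).1)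
        (sq_nonneg _)
    · unfold Q
      rcases Nat.eq_zero_or_pos s.1.card with h | h
      · rw [h]; simp
      · rw [div_le_one (by positivity)]
        calc ∑ i ∈ s.1, ∑ j ∈ s.1, f ((s.2 i * (s.2 j)⁻¹) • χ) ≤ ∑ i ∈ s.1, ∑ j ∈ s.1, (1 : ℝ) :=
              Finset.sum_le_sum fun i _ => Finset.sum_le_sum fun j _ => (hf.2 _).2
          _ = (s.1.card : ℝ) ^ 2 := by simp [sq]

/-- finite form -/
theorem maxi_fin {P : Measure Ω} [IsProbabilityMeasure P] (hU : MPA U P)
    (L : List (Finset ι × (ι → U))) (hL : NE L) {f : Ω → ℝ} (hf : Nice f)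
    {lam : ℝ} (hlam : 0 < lam) :
    P.real {χ | ∃ l, l <+: L ∧ lam < SL l f χ} ≤ 2 * Real.sqrt (∫ χ, f χ ∂P) / lam := by
  obtain ⟨hN, hI⟩ := ev_integral (P := P) L (fun χ is => mx L f χ is) (mx_nice hU L hf)
  have h1 : {χ | ∃ l, l <+: L ∧ lam < SL l f χ} ⊆ {χ | lam ≤ ev L (fun is => mx L f χ is)} := by
    rintro χ ⟨l, hl, hlt⟩
    rw [← RL_eq_SL] at hlt
    exact le_trans hlt.le (RL_le_ev_mx l L hl hL f χ)
  have h2 : lam * P.real {χ | lam ≤ ev L (fun is => mx L f χ is)} ≤
      ∫ χ, ev L (fun is => mx L f χ is) ∂P :=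
    mul_meas_ge_le_integral_of_nonneg (Filter.Eventually.of_forall fun χ => (hN.2 χ).1)
      hN.integrable lam
  rw [hI] at h2
  rw [le_div_iff₀ hlam]
  calc P.real {χ | ∃ l, l <+: L ∧ lam < SL l f χ} * lam
      ≤ P.real {χ | lam ≤ ev L (fun is => mx L f χ is)} * lam :=
        mul_le_mul_of_nonneg_right (measureReal_mono h1) hlam.le
    _ = lam * P.real {χ | lam ≤ ev L (fun is => mx L f χ is)} := mul_comm _ _
    _ ≤ _ := h2
    _ ≤ _ := key2 hU L hL hf

/-- the average over the pairs of choices of the first `n` steps of a sequence of steps -/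
noncomputable def SN (s : ℕ → Finset ι × (ι → U)) (n : ℕ) (f : Ω → ℝ) : Ω → ℝ :=
  SL ((List.range n).map s) f

/-- **the maximal inequality** -/
theorem MAXI {P : Measure Ω} [IsProbabilityMeasure P] (hU : MPA U P)
    (s : ℕ → Finset ι × (ι → U)) (hs : ∀ j, (s j).1.Nonempty) {f : Ω → ℝ} (hf : Nice f)
    {lam : ℝ} (hlam : 0 < lam) :
    P.real {χ | ∃ n, lam < SN s n f χ} ≤ 2 * Real.sqrt (∫ χ, f χ ∂P) / lam := by
  set E : ℕ → Set Ω := fun N => {χ | ∃ n ≤ N, lam < SN s n f χ} with hE
  have hmono : Monotone E := by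
    intro N M hNM χ hχ
    obtain ⟨n, hn, h⟩ := hχ
    exact ⟨n, hn.trans hNM, h⟩
  have hU' : {χ | ∃ n, lam < SN s n f χ} = ⋃ N, E N := by
    ext χ
    simp only [hE, Set.mem_ofPred_eq, Set.mem_iUnion]
    exact ⟨fun ⟨n, h⟩ => ⟨n, n, le_refl _, h⟩, fun ⟨_, n, _, h⟩ => ⟨n, h⟩⟩
  have hbound : ∀ N, P.real (E N) ≤ 2 * Real.sqrt (∫ χ, f χ ∂P) / lam := by
    intro N
    refine le_trans (measureReal_mono ?_)
      (maxi_fin hU ((List.range N).map s) ?_ hf hlam)
    · rintro χ ⟨n, hn, h⟩
      refine ⟨(List.range n).map s, ?_, h⟩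
      obtain ⟨k, rfl⟩ := Nat.exists_eq_add_of_le hn
      rw [List.range_add, List.map_append]
      exact List.prefix_append _ _
    · intro t ht
      obtain ⟨j, _, rfl⟩ := List.mem_map.1 ht
      exact hs j
  rw [hU']
  have ht : Filter.Tendsto (fun N => P.real (E N)) Filter.atTop (nhds (P.real (⋃ N, E N))) := by
    have := tendsto_measure_iUnion_atTop (μ := P) hmono
    exact (ENNReal.tendsto_toReal (measure_ne_top P _)).comp this
  exact le_of_tendsto' ht hbound

end Measure

end Pool.Agent.Helper4.RG
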